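import Pool.Agent.R544.TF.Red
import Pool.Agent.H648R3.WC.Nae

/-!
# Monotone not-all-equal satisfiability with variables numbered below three times the number of
clauses
-/

set_option autoImplicit false

namespace Pool.Agent.R544

open Pool.Agent.NPC Pool.Agent.NPC.WC648

/-- Instances: lists of triples of variables. -/
abbrev N3 : Type := List (ℕ × ℕ × ℕ)

/-- Not-all-equal satisfiability. -/
def NAE3 (φ : N3) : Prop :=
  ∃ τ : ℕ → Bool, ∀ t ∈ φ, ¬ (τ t.1 = τ t.2.1 ∧ τ t.2.1 = τ t.2.2)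

/-- All numbers are small. -/
def BN (φ : N3) : Prop :=
  ∀ t ∈ φ, t.1 < 3 * φ.length ∧ t.2.1 < 3 * φ.length ∧ t.2.2 < 3 * φ.length

/-- The variables of the triple number `j`. -/
def tr (φ : N3) (j : ℕ) : ℕ × ℕ × ℕ := φ.getD j (0, 0, 0)

theorem poly_tr {α : Type} [TEnc α] {f : α → N3} {g : α → ℕ} (hf : NPC.Poly f)
    (hg : NPC.Poly g) : NPC.Poly (fun a => tr (f a) (g a)) := by
  unfold tr
  fun_prop

attribute [fun_prop] poly_tr

theorem tr_mem {φ : N3} {j : ℕ} (hj : j < φ.length) : tr φ j ∈ φ := by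
  unfold tr
  rw [List.getD_eq_getElem _ _ hj]
  exact List.getElem_mem _

theorem nae3_iff (φ : N3) : NAE3 φ ↔ ∃ τ : ℕ → Bool, ∀ j < φ.length,
    ¬ (τ (tr φ j).1 = τ (tr φ j).2.1 ∧ τ (tr φ j).2.1 = τ (tr φ j).2.2) := by
  unfold NAE3
  refine exists_congr fun τ => ⟨fun h j hj => h _ (tr_mem hj), fun h t ht => ?_⟩
  obtain ⟨j, hj, rfl⟩ := List.getElem_of_mem ht
  have := h j hj
  unfold tr at this
  rwa [List.getD_eq_getElem _ _ hj] at this

/-- The occurrences of the variables. -/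
def occ3 (φ : List (NV × NV × NV)) : List NV := φ.flatMap (fun t => [t.1, t.2.1, t.2.2])

theorem occ3_length (φ : List (NV × NV × NV)) : (occ3 φ).length = 3 * φ.length := by
  unfold occ3
  induction φ with
  | nil => rfl
  | cons t φ ih =>
    rw [List.flatMap_cons, List.length_append, ih]
    simp
    omega

theorem mem_occ3 {φ : List (NV × NV × NV)} {t : NV × NV × NV} (h : t ∈ φ) :
    t.1 ∈ occ3 φ ∧ t.2.1 ∈ occ3 φ ∧ t.2.2 ∈ occ3 φ := by
  unfold occ3
  simp only [List.mem_flatMap]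
  exact ⟨⟨t, h, by simp⟩, ⟨t, h, by simp⟩, ⟨t, h, by simp⟩⟩

/-- Renaming. -/
noncomputable def ren (φ : List (NV × NV × NV)) : N3 :=
  φ.map (fun t => (index (occ3 φ) t.1, index (occ3 φ) t.2.1, index (occ3 φ) t.2.2))

theorem poly_occ3 : NPC.Poly occ3 := by
  unfold occ3
  fun_prop

theorem poly_ren : NPC.Poly ren := by
  unfold ren
  have h : NPC.Poly (fun x : List (NV × NV × NV) × (NV × NV × NV) => occ3 x.1) :=
    poly_occ3.comp (by fun_prop)
  refine NPC.Poly.map (l := fun φ => φ) (F := fun (φ : List (NV × NV × NV)) t =>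
    (index (occ3 φ) t.1, index (occ3 φ) t.2.1, index (occ3 φ) t.2.2)) NPC.Poly.id ?_
  exact NPC.Poly.pair (NPC.Poly.index h (by fun_prop)) (NPC.Poly.pair
    (NPC.Poly.index h (by fun_prop)) (NPC.Poly.index h (by fun_prop)))

theorem bn_ren (φ : List (NV × NV × NV)) : BN (ren φ) := by
  intro t ht
  have hl : (ren φ).length = φ.length := by simp [ren]
  rw [hl, ← occ3_length]
  unfold ren at ht
  simp only [List.mem_map] at ht
  obtain ⟨u, hu, rfl⟩ := ht
  obtain ⟨h1, h2, h3⟩ := mem_occ3 hu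
  exact ⟨index_lt h1, index_lt h2, index_lt h3⟩

theorem ren_correct (φ : List (NV × NV × NV)) : NAE φ ↔ NAE3 (ren φ) := by
  unfold NAE NAE3 ren
  constructor
  · rintro ⟨τ, h⟩
    refine ⟨fun i => τ ((occ3 φ).getD i (0, 0, false)), fun t ht => ?_⟩
    simp only [List.mem_map] at ht
    obtain ⟨u, hu, rfl⟩ := ht
    obtain ⟨h1, h2, h3⟩ := mem_occ3 hu
    have key : ∀ v ∈ occ3 φ, (occ3 φ).getD (index (occ3 φ) v) (0, 0, false) = v := by
      intro v hv
      rw [List.getD_eq_getElem?_getD, getElem?_index hv]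
      rfl
    simp only [key _ h1, key _ h2, key _ h3]
    exact h u hu
  · rintro ⟨τ, h⟩
    refine ⟨fun v => τ (index (occ3 φ) v), fun t ht => ?_⟩
    exact h _ (List.mem_map_of_mem ht)

theorem hardPr_NAE3 : HardPr BN NAE3 := by
  have h1 : HardPr (fun _ : List (NV × NV × NV) => True) NAE := by
    intro L hL
    obtain ⟨f, hf, h⟩ := hardI_NAE L hL
    exact ⟨f, hf, fun _ => trivial, h⟩
  exact h1.trans poly_ren (fun φ _ => bn_ren φ) fun φ _ => ren_correct φ

end Pool.Agent.R544
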