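import Pool.Agent.R544.Util
import Pool.Agent.H670R2.RatDec

/-!
# Signs of sums of rational numbers are computable in polynomial time
-/

set_option autoImplicit false

namespace Pool.Agent.R544

open Pool.Agent.NPC Pool.Agent.NPC.H670R2

variable {α : Type} [TEnc α]

theorem poly_prodNat {l : α → List ℕ} (hl : NPC.Poly l) : NPC.Poly (fun a => (l a).prod) := by
  obtain ⟨r, hr⟩ := hl.sz_le
  have key : ∀ l : List ℕ, l.foldr (fun x s => x * s) 1 = l.prod := by
    intro l
    induction l with
    | nil => rfl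
    | cons x l ih => rw [List.foldr_cons, ih, List.prod_cons]
  have hsz : ∀ l : List ℕ, l.prod.size ≤ sz l := by
    intro l
    induction l with
    | nil => simp
    | cons x l ih =>
      rw [List.prod_cons]
      have h1 := Nat.lt_size_self x
      have h2 := Nat.lt_size_self l.prod
      have h3 : x * l.prod < 2 ^ (x.size + l.prod.size) := by
        rw [pow_add]
        exact Nat.mul_lt_mul'' h1 h2
      have h4 := Nat.size_le.2 h3
      have h5 := size_le_sz x
      simp
      omega
  refine (NPC.Poly.foldr (s := fun _ => 1) (F := fun _ x s => x * s) hl (NPC.Poly.const 1)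
    (NPC.Poly.mul (NPC.Poly.fst (NPC.Poly.snd NPC.Poly.id)) (NPC.Poly.snd (NPC.Poly.snd NPC.Poly.id)))
    (Polynomial.C 4 * r + Polynomial.C 1) ?_).congr fun a => key _
  intro a k _
  rw [key]
  have h1 := sz_nat_le ((l a).drop k).prod
  have h2 := hsz ((l a).drop k)
  have h3 := NPC.Poly.sz_drop_le (l a) k
  have h4 := hr a
  simp only [Polynomial.eval_add, Polynomial.eval_mul, Polynomial.eval_C]
  omega

/-- The product of the denominators. -/
def denP (l : List ℚ) : ℕ := (l.map Rat.den).prod

theorem denP_pos (l : List ℚ) : 0 < denP l :=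
  Nat.pos_of_ne_zero (by
    unfold denP
    refine List.prod_ne_zero fun h => ?_
    obtain ⟨q, _, hq⟩ := List.mem_map.1 h
    exact q.den_nz hq)

theorem den_dvd_denP {l : List ℚ} {q : ℚ} (h : q ∈ l) : q.den ∣ denP l :=
  List.dvd_prod (List.mem_map.2 ⟨q, h, rfl⟩)

/-- The scaled sum. -/
def scaledSum (l : List ℚ) : ℤ := (l.map (fun q => q.num * ((denP l / q.den : ℕ) : ℤ))).sum

theorem scaledSum_eq (l : List ℚ) : ((scaledSum l : ℤ) : ℚ) = (denP l : ℚ) * l.sum := by
  unfold scaledSum
  have key : ∀ (D : ℕ) (l : List ℚ), (∀ q ∈ l, q.den ∣ D) →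
      (((l.map (fun q => q.num * ((D / q.den : ℕ) : ℤ))).sum : ℤ) : ℚ) = (D : ℚ) * l.sum := by
    intro D l
    induction l with
    | nil => simp
    | cons q l ih =>
      intro h
      have h1 := h q List.mem_cons_self
      have h2 := ih fun q hq => h q (List.mem_cons_of_mem _ hq)
      simp only [List.map_cons, List.sum_cons, Int.cast_add, h2, mul_add]
      congr 1
      have h3 : (q.den : ℚ) ≠ 0 := by exact_mod_cast q.den_nz
      rw [Int.cast_mul, Int.cast_natCast, Nat.cast_div h1 h3]
      have h4 : (q.num : ℚ) = q * q.den := (Rat.mul_den_eq_num q).symm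
      rw [h4]
      field_simp
  exact key _ l fun q hq => den_dvd_denP hq

theorem scaledSum_neg_iff (l : List ℚ) : scaledSum l < 0 ↔ l.sum < 0 := by
  have h1 := scaledSum_eq l
  have h2 : (0 : ℚ) < denP l := by exact_mod_cast denP_pos l
  constructor
  · intro h
    have h3 : ((scaledSum l : ℤ) : ℚ) < 0 := by exact_mod_cast h
    rw [h1] at h3
    by_contra h4
    push Not at h4
    exact absurd (mul_nonneg h2.le h4) (not_le.2 h3)
  · intro h
    have h3 : ((scaledSum l : ℤ) : ℚ) < 0 := by
      rw [h1]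
      exact mul_neg_of_pos_of_neg h2 h
    exact_mod_cast h3

theorem poly_scaledSum {l : α → List ℚ} (hl : NPC.Poly l) :
    NPC.Poly (fun a => scaledSum (l a)) := by
  unfold scaledSum denP
  refine NPC.Poly.isum (NPC.Poly.map
    (F := fun a (q : ℚ) => q.num * ((((l a).map Rat.den).prod / q.den : ℕ) : ℤ)) hl ?_)
  refine NPC.Poly.imul (poly_num (NPC.Poly.snd NPC.Poly.id)) (NPC.Poly.natCast (NPC.Poly.div
    (poly_prodNat (NPC.Poly.map (F := fun _ q => Rat.den q) (hl.comp (NPC.Poly.fst NPC.Poly.id))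
      (poly_den (NPC.Poly.snd NPC.Poly.id)))) (poly_den (NPC.Poly.snd NPC.Poly.id))))

theorem pp_sum_neg {l : α → List ℚ} (hl : NPC.Poly l) : PP (fun a => (l a).sum < 0) :=
  PP.congr (p := fun a => scaledSum (l a) < 0)
    ⟨fun a => decide (scaledSum (l a) < 0), NPC.Poly.isNeg (poly_scaledSum hl), fun a => by simp⟩
    fun a => scaledSum_neg_iff _

theorem poly_intToRat {z : α → ℤ} (hz : NPC.Poly z) : NPC.Poly (fun a => ((z a : ℤ) : ℚ)) := by
  have h : NPC.Poly (fun a => (z a, (1 : ℕ))) := NPC.Poly.pair hz (NPC.Poly.const 1)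
  have h2 : NPC.Poly (fun a => (((z a : ℤ) : ℚ).num, ((z a : ℤ) : ℚ).den)) :=
    h.congr fun a => by simp
  exact h2

theorem poly_natToRat {z : α → ℕ} (hz : NPC.Poly z) : NPC.Poly (fun a => ((z a : ℕ) : ℚ)) :=
  (poly_intToRat (NPC.Poly.natCast hz)).congr fun a => by simp

attribute [fun_prop] poly_natToRat

end Pool.Agent.R544
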