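import Pool.Agent.R544.Util

/-!
# More small tools
-/

set_option autoImplicit false

namespace Pool.Agent.R544

open Pool.Agent.NPC

/-- Removing repetitions. -/
theorem poly_dedup {α β : Type} [TEnc α] [TEnc β] [DecidableEq β] {l : α → List β} (hl : NPC.Poly l) :
    NPC.Poly (fun a => (l a).dedup) := by
  obtain ⟨r, hr⟩ := hl.sz_le
  have key : ∀ l : List β, l.foldr (fun b s => if b ∈ s then s else b :: s) [] = l.dedup := by
    intro l
    induction l with
    | nil => rfl
    | cons b l ih =>
      rw [List.foldr_cons, ih]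
      by_cases h : b ∈ l
      · rw [List.dedup_cons_of_mem h, if_pos (List.mem_dedup.2 h)]
      · rw [List.dedup_cons_of_notMem h, if_neg (fun h' => h (List.mem_dedup.1 h'))]
  have hsz : ∀ l : List β, sz (l.dedup) ≤ sz l := by
    intro l
    induction l with
    | nil => simp
    | cons b l ih =>
      by_cases h : b ∈ l
      · rw [List.dedup_cons_of_mem h, sz_list_cons]
        omega
      · rw [List.dedup_cons_of_notMem h, sz_list_cons, sz_list_cons]
        omega
  refine (NPC.Poly.foldr (s := fun _ => [])
    (F := fun _ b (s : List β) => if b ∈ s then s else b :: s)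
    hl (NPC.Poly.const _) ?_ r ?_).congr fun a => key _
  · exact NPC.Poly.ite (p := fun p : α × β × List β => p.2.1 ∈ p.2.2)
      (NPC.Poly.decide_mem (NPC.Poly.fst (NPC.Poly.snd NPC.Poly.id))
        (NPC.Poly.snd (NPC.Poly.snd NPC.Poly.id)))
      (NPC.Poly.snd (NPC.Poly.snd NPC.Poly.id)) (NPC.Poly.cons
      (NPC.Poly.fst (NPC.Poly.snd NPC.Poly.id)) (NPC.Poly.snd (NPC.Poly.snd NPC.Poly.id)))
  · intro a k _
    rw [key]
    exact (hsz _).trans ((Poly.sz_drop_le _ _).trans (hr a))

attribute [fun_prop] poly_dedup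

theorem length_le_of_nodup_subset {α : Type} [DecidableEq α] {l l' : List α} (h : l.Nodup)
    (h' : ∀ a ∈ l, a ∈ l') : l.length ≤ l'.length :=
  (h.subperm h').length_le

end Pool.Agent.R544
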