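import Pool.Agent.R544.Util2
import Pool.Agent.NPC.Sat2

/-!
# The occurrences of the literals of a formula, numbered consecutively
-/

set_option autoImplicit false

namespace Pool.Agent.R544

open Pool.Agent.NPC

/-- An instance of 3SAT. -/
abbrev F3 : Type := List (Lit ℕ × Lit ℕ × Lit ℕ)

/-- All occurrences of literals: those of the clause number `j` have the numbers `3 j`, `3 j + 1`
and `3 j + 2`. -/
def lits (φ : F3) : List (Lit ℕ) := φ.flatMap (fun c => [c.1, c.2.1, c.2.2])

/-- The literal number `o`. -/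
def lt (φ : F3) (o : ℕ) : Lit ℕ := (lits φ).getD o (true, 0)

theorem poly_lt : NPC.Poly (fun x : F3 × ℕ => lt x.1 x.2) := by
  unfold lt lits
  fun_prop

theorem poly_lt' {α : Type} [TEnc α] {f : α → F3} {g : α → ℕ} (hf : NPC.Poly f)
    (hg : NPC.Poly g) : NPC.Poly (fun a => lt (f a) (g a)) :=
  poly_lt.comp (f := fun a => (f a, g a)) (by fun_prop)

attribute [fun_prop] poly_lt'

theorem lits_length (φ : F3) : (lits φ).length = 3 * φ.length := by
  induction φ with
  | nil => rfl
  | cons c φ ih =>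
    unfold lits at *
    rw [List.flatMap_cons, List.length_append, ih]
    simp
    omega

theorem lt_clause (φ : F3) (j : ℕ) (hj : j < φ.length) :
    lt φ (3 * j) = φ[j].1 ∧ lt φ (3 * j + 1) = φ[j].2.1 ∧ lt φ (3 * j + 2) = φ[j].2.2 := by
  induction φ generalizing j with
  | nil => simp at hj
  | cons c φ ih =>
    cases j with
    | zero => exact ⟨rfl, rfl, rfl⟩
    | succ j =>
      have h := ih j (by simpa using hj)
      have e : ∀ k, lt (c :: φ) (k + 3) = lt φ k := fun k => by
        simp [lt, lits]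
      rw [show 3 * (j + 1) = 3 * j + 3 from by ring, e,
        show 3 * j + 3 + 1 = 3 * j + 1 + 3 from by ring, e,
        show 3 * j + 3 + 2 = 3 * j + 2 + 3 from by ring, e]
      simpa using h

/-- Satisfiability in terms of the numbered occurrences. -/
theorem sat3_iff (φ : F3) : SAT3 φ ↔
    ∃ τ : ℕ → Bool, ∀ j < φ.length, ∃ o < 3 * φ.length, o / 3 = j ∧ τ (lt φ o).2 = (lt φ o).1 := by
  unfold SAT3 Sat3V
  refine exists_congr fun τ => ?_
  constructor
  · intro h j hj
    obtain ⟨h1, h2, h3⟩ := lt_clause φ j hj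
    rcases h _ (List.getElem_mem hj) with h | h | h
    · exact ⟨3 * j, by omega, by omega, by rw [h1]; exact h⟩
    · exact ⟨3 * j + 1, by omega, by omega, by rw [h2]; exact h⟩
    · exact ⟨3 * j + 2, by omega, by omega, by rw [h3]; exact h⟩
  · intro h c hc
    obtain ⟨j, hj, rfl⟩ := List.getElem_of_mem hc
    obtain ⟨h1, h2, h3⟩ := lt_clause φ j hj
    obtain ⟨o, _, ho', hτ⟩ := h j hj
    have : o = 3 * j ∨ o = 3 * j + 1 ∨ o = 3 * j + 2 := by omega
    rcases this with rfl | rfl | rfl
    · left; rw [h1] at hτ; exact hτ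
    · right; left; rw [h2] at hτ; exact hτ
    · right; right; rw [h3] at hτ; exact hτ

theorem bounded_lt {φ : F3} (h : Bounded3 φ) {o : ℕ} (ho : o < 3 * φ.length) :
    (lt φ o).2 < 3 * φ.length := by
  have hj : o / 3 < φ.length := by omega
  obtain ⟨h1, h2, h3⟩ := lt_clause φ (o / 3) hj
  obtain ⟨b1, b2, b3⟩ := h _ (List.getElem_mem hj)
  have : o = 3 * (o / 3) ∨ o = 3 * (o / 3) + 1 ∨ o = 3 * (o / 3) + 2 := by omega
  rcases this with e | e | e
  · rw [e, h1]; exact b1
  · rw [e, h2]; exact b2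
  · rw [e, h3]; exact b3

/-! ### Cells: pairs of a variable and an occurrence -/

/-- The number of the cell of the occurrence number `o`. -/
def cell (φ : F3) (o : ℕ) : ℕ := (lt φ o).2 * (3 * φ.length) + o

/-- The next cell of the same variable, cyclically. -/
def nxt (φ : F3) (i : ℕ) : ℕ :=
  i / (3 * φ.length) * (3 * φ.length) + (i % (3 * φ.length) + 1) % (3 * φ.length)

theorem poly_cell {α : Type} [TEnc α] {f : α → F3} {g : α → ℕ} (hf : NPC.Poly f)
    (hg : NPC.Poly g) : NPC.Poly (fun a => cell (f a) (g a)) := by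
  unfold cell
  fun_prop

theorem poly_nxt {α : Type} [TEnc α] {f : α → F3} {g : α → ℕ} (hf : NPC.Poly f)
    (hg : NPC.Poly g) : NPC.Poly (fun a => nxt (f a) (g a)) := by
  unfold nxt
  fun_prop

attribute [fun_prop] poly_cell poly_nxt

theorem cell_mod {φ : F3} {o : ℕ} (ho : o < 3 * φ.length) : cell φ o % (3 * φ.length) = o := by
  unfold cell
  rw [Nat.mul_comm, Nat.mul_add_mod, Nat.mod_eq_of_lt ho]

theorem cell_div {φ : F3} {o : ℕ} (ho : o < 3 * φ.length) :
    cell φ o / (3 * φ.length) = (lt φ o).2 := by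
  unfold cell
  rw [Nat.mul_comm, Nat.mul_add_div (by omega), Nat.div_eq_of_lt ho, Nat.add_zero]

theorem cell_lt {φ : F3} (h : Bounded3 φ) {o : ℕ} (ho : o < 3 * φ.length) :
    cell φ o < 3 * φ.length * (3 * φ.length) := by
  unfold cell
  have h1 := bounded_lt h ho
  calc (lt φ o).2 * (3 * φ.length) + o < (lt φ o).2 * (3 * φ.length) + 3 * φ.length := by omega
    _ = ((lt φ o).2 + 1) * (3 * φ.length) := by ring
    _ ≤ 3 * φ.length * (3 * φ.length) := Nat.mul_le_mul_right _ h1

theorem nxt_div {φ : F3} (hN : 0 < 3 * φ.length) (i : ℕ) :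
    nxt φ i / (3 * φ.length) = i / (3 * φ.length) := by
  unfold nxt
  rw [Nat.mul_comm, Nat.mul_add_div hN, Nat.div_eq_of_lt (Nat.mod_lt _ hN), Nat.add_zero]

theorem nxt_mod {φ : F3} (hN : 0 < 3 * φ.length) (i : ℕ) :
    nxt φ i % (3 * φ.length) = (i % (3 * φ.length) + 1) % (3 * φ.length) := by
  unfold nxt
  rw [Nat.mul_comm, Nat.mul_add_mod, Nat.mod_eq_of_lt (Nat.mod_lt _ hN)]

theorem pos_of_lt_cells {φ : F3} {i : ℕ} (hi : i < 3 * φ.length * (3 * φ.length)) :
    0 < 3 * φ.length := by
  by_contra h0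
  have : 3 * φ.length = 0 := by omega
  rw [this] at hi
  simp at hi

theorem nxt_lt (φ : F3) {i : ℕ} (hi : i < 3 * φ.length * (3 * φ.length)) :
    nxt φ i < 3 * φ.length * (3 * φ.length) := by
  have hN := pos_of_lt_cells hi
  have h1 : i / (3 * φ.length) < 3 * φ.length := (Nat.div_lt_iff_lt_mul hN).2 hi
  rw [← Nat.div_lt_iff_lt_mul hN, nxt_div hN]
  exact h1

theorem nxt_inj (φ : F3) {i k : ℕ} (hi : i < 3 * φ.length * (3 * φ.length))
    (h : nxt φ i = nxt φ k) : i = k := by
  have hN := pos_of_lt_cells hi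
  have h1 : i / (3 * φ.length) = k / (3 * φ.length) := by
    rw [← nxt_div hN i, ← nxt_div hN k, h]
  have h2 : (i % (3 * φ.length) + 1) % (3 * φ.length) = (k % (3 * φ.length) + 1) % (3 * φ.length) := by
    rw [← nxt_mod hN i, ← nxt_mod hN k, h]
  have h3 := Nat.mod_lt i hN
  have h4 := Nat.mod_lt k hN
  have h5 : i % (3 * φ.length) = k % (3 * φ.length) := by
    generalize 3 * φ.length = N at *
    generalize i % N = a at *
    generalize k % N = b at *
    by_cases ha : a + 1 = N
    · by_cases hb : b + 1 = N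
      · omega
      · rw [ha, Nat.mod_self, Nat.mod_eq_of_lt (by omega)] at h2
        omega
    · by_cases hb : b + 1 = N
      · rw [hb, Nat.mod_self, Nat.mod_eq_of_lt (by omega)] at h2
        omega
      · rw [Nat.mod_eq_of_lt (by omega), Nat.mod_eq_of_lt (by omega)] at h2
        omega
  rw [← Nat.div_add_mod i (3 * φ.length), ← Nat.div_add_mod k (3 * φ.length), h1, h5]

/-- The step from one cell of a variable to the next one. -/
theorem nxt_step {φ : F3} (x : ℕ) {o : ℕ} (ho : o + 1 < 3 * φ.length) :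
    nxt φ (x * (3 * φ.length) + o) = x * (3 * φ.length) + (o + 1) := by
  have hN : 0 < 3 * φ.length := by omega
  have h1 : (x * (3 * φ.length) + o) / (3 * φ.length) = x := by
    rw [Nat.mul_comm, Nat.mul_add_div hN, Nat.div_eq_of_lt (by omega), Nat.add_zero]
  have h2 : (x * (3 * φ.length) + o) % (3 * φ.length) = o := by
    rw [Nat.mul_comm, Nat.mul_add_mod, Nat.mod_eq_of_lt (by omega)]
  unfold nxt
  rw [h1, h2, Nat.mod_eq_of_lt ho]

/-- A property of cells which is invariant under the step holds at a cell iff it holds at the first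
cell of the variable. -/
theorem iff_first {φ : F3} {σ : ℕ → Prop}
    (hσ : ∀ i < 3 * φ.length * (3 * φ.length), (σ (nxt φ i) ↔ σ i)) {x : ℕ}
    (hx : x < 3 * φ.length) : ∀ o < 3 * φ.length,
      (σ (x * (3 * φ.length) + o) ↔ σ (x * (3 * φ.length))) := by
  intro o
  induction o with
  | zero => intro _; rfl
  | succ o ih =>
    intro ho
    rw [← ih (by omega), ← nxt_step x ho]
    refine hσ _ ?_
    calc x * (3 * φ.length) + o < x * (3 * φ.length) + 3 * φ.length := by omega
      _ = (x + 1) * (3 * φ.length) := by ring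
      _ ≤ 3 * φ.length * (3 * φ.length) := Nat.mul_le_mul_right _ hx

/-- Satisfiability in terms of cells. -/
theorem sat3_iff_cells {φ : F3} (hb : Bounded3 φ) : SAT3 φ ↔ ∃ σ : ℕ → Prop,
    (∀ i < 3 * φ.length * (3 * φ.length), (σ (nxt φ i) ↔ σ i)) ∧
    ∀ j < φ.length, ∃ i < 3 * φ.length * (3 * φ.length), cell φ (i % (3 * φ.length)) = i ∧
      i % (3 * φ.length) / 3 = j ∧ (σ i ↔ (lt φ (i % (3 * φ.length))).1 = true) := by
  rw [sat3_iff]
  constructor
  · rintro ⟨τ, hτ⟩
    refine ⟨fun i => τ (i / (3 * φ.length)) = true, ?_, ?_⟩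
    · intro i hi
      simp only
      rw [nxt_div (pos_of_lt_cells hi)]
    · intro j hj
      obtain ⟨o, ho, hoj, h⟩ := hτ j hj
      refine ⟨cell φ o, cell_lt hb ho, ?_, ?_, ?_⟩
      · rw [cell_mod ho]
      · rw [cell_mod ho]; exact hoj
      · rw [cell_mod ho]
        simp only [cell_div ho, h]
  · rintro ⟨σ, hσ, h⟩
    classical
    refine ⟨fun x => decide (σ (x * (3 * φ.length))), fun j hj => ?_⟩
    obtain ⟨i, hi, h1, h2, h3⟩ := h j hj
    have hN := pos_of_lt_cells hi
    have ho := Nat.mod_lt i hN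
    refine ⟨i % (3 * φ.length), ho, h2, ?_⟩
    have h4 := iff_first hσ (bounded_lt hb ho) _ ho
    have h5 : (lt φ (i % (3 * φ.length))).2 * (3 * φ.length) + i % (3 * φ.length) = i := h1
    rw [h5] at h4
    have h6 : σ ((lt φ (i % (3 * φ.length))).2 * (3 * φ.length)) ↔
      (lt φ (i % (3 * φ.length))).1 = true := h4.symm.trans h3
    cases hb : (lt φ (i % (3 * φ.length))).1 with
    | true => rw [hb] at h6; simpa using h6
    | false => rw [hb] at h6; simpa using h6

end Pool.Agent.R544
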