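import Pool.Agent.R544.Nae3
import Pool.Agent.H958R2.NLT.X13Hard

/-!
# Monotone exactly-one-in-three satisfiability (variables may be repeated in a triple)
-/

set_option autoImplicit false

namespace Pool.Agent.R544

open Pool.Agent.NPC Pool.Agent.H958R2

/-- Exactly one variable of every triple is true. -/
def P13 (φ : N3) : Prop := ∃ τ : ℕ → Bool, ∀ t ∈ φ, one3 (τ t.1) (τ t.2.1) (τ t.2.2) = true

/-- A variable for a literal: `2 v` for the variable `v` and `2 v + 1` for its negation. -/
def lv (l : Lit ℕ) : ℕ := 2 * l.2 + (if l.1 then 0 else 1)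

/-- The triples. -/
def toP13 (φ : List (Lit ℕ × Lit ℕ × Lit ℕ)) : N3 :=
  φ.map (fun c => (lv c.1, lv c.2.1, lv c.2.2)) ++
    ((List.range (3 * φ.length)).map (fun v => (2 * v, 2 * v + 1, 2 * (3 * φ.length))) ++
    [(2 * (3 * φ.length), 2 * (3 * φ.length), 2 * (3 * φ.length) + 1)])

theorem poly_lv {α : Type} [TEnc α] {f : α → Lit ℕ} (hf : NPC.Poly f) :
    NPC.Poly (fun a => lv (f a)) := by
  unfold lv
  have h : PP (fun a => (f a).1 = true) := PP.bool (NPC.Poly.fst hf)
  have h2 : NPC.Poly (fun a => if (f a).1 = true then 0 else 1) :=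
    PP.ite (f := fun _ => 0) (g := fun _ => 1) h (NPC.Poly.const _) (NPC.Poly.const _)
  exact NPC.Poly.add (by fun_prop) h2

theorem poly_toP13 : NPC.Poly toP13 := by
  unfold toP13
  have hn : UPoly (fun φ : List (Lit ℕ × Lit ℕ × Lit ℕ) => 3 * φ.length) :=
    UPoly.mul (UPoly.const 3) (UPoly.length NPC.Poly.id)
  refine NPC.Poly.append ?_ (NPC.Poly.append ?_ (by fun_prop))
  · exact NPC.Poly.map (l := fun φ => φ) (F := fun (_ : List (Lit ℕ × Lit ℕ × Lit ℕ)) c =>
      (lv c.1, lv c.2.1, lv c.2.2)) NPC.Poly.id (NPC.Poly.pair (poly_lv (by fun_prop))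
      (NPC.Poly.pair (poly_lv (by fun_prop)) (poly_lv (by fun_prop))))
  · exact NPC.Poly.map (l := fun φ : List (Lit ℕ × Lit ℕ × Lit ℕ) => List.range (3 * φ.length))
      (F := fun φ v => (2 * v, 2 * v + 1, 2 * (3 * φ.length))) hn.range (by fun_prop)

theorem toP13_length (φ : List (Lit ℕ × Lit ℕ × Lit ℕ)) : (toP13 φ).length = 4 * φ.length + 1 := by
  unfold toP13
  simp
  omega

theorem bn_toP13 {φ : List (Lit ℕ × Lit ℕ × Lit ℕ)} (h : Bd13 φ) : BN (toP13 φ) := by
  intro t ht
  rw [toP13_length]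
  unfold toP13 at ht
  rw [List.mem_append, List.mem_append, List.mem_map, List.mem_map, List.mem_singleton] at ht
  have hl : ∀ l : Lit ℕ, lv l ≤ 2 * l.2 + 1 := by
    intro l
    unfold lv
    split_ifs <;> omega
  rcases ht with ⟨c, hc, rfl⟩ | ⟨v, hv, rfl⟩ | rfl
  · obtain ⟨h1, h2, h3⟩ := h c hc
    have := hl c.1
    have := hl c.2.1
    have := hl c.2.2
    refine ⟨?_, ?_, ?_⟩ <;> simp only <;> omega
  · rw [List.mem_range] at hv
    refine ⟨?_, ?_, ?_⟩ <;> simp only <;> omega
  · refine ⟨?_, ?_, ?_⟩ <;> simp only <;> omega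

theorem one3_a : ∀ x y : Bool, one3 x x y = true → x = false := by decide
theorem one3_b : ∀ x y : Bool, one3 x y false = true → y = !x := by decide
theorem one3_c : ∀ x : Bool, one3 x (!x) false = true := by decide

theorem toP13_correct {φ : List (Lit ℕ × Lit ℕ × Lit ℕ)} (hb : Bd13 φ) :
    X13 φ ↔ P13 (toP13 φ) := by
  constructor
  · rintro ⟨τ, h⟩
    let σ : ℕ → Bool := fun n => if n = 2 * (3 * φ.length) then false else
      if n = 2 * (3 * φ.length) + 1 then true else if n % 2 = 0 then τ (n / 2) else !(τ (n / 2))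
    have e1 : σ (2 * (3 * φ.length)) = false := if_pos rfl
    have e2 : σ (2 * (3 * φ.length) + 1) = true := by
      show (if _ then _ else _) = _
      rw [if_neg (by omega), if_pos rfl]
    have e3 : ∀ v < 3 * φ.length, σ (2 * v) = τ v := by
      intro v hv
      show (if _ then _ else _) = _
      rw [if_neg (by omega), if_neg (by omega), if_pos (by omega), Nat.mul_div_cancel_left _ (by omega)]
    have e4 : ∀ v < 3 * φ.length, σ (2 * v + 1) = !(τ v) := by
      intro v hv
      show (if _ then _ else _) = _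
      rw [if_neg (by omega), if_neg (by omega), if_neg (by omega), show (2 * v + 1) / 2 = v by omega]
    have e5 : ∀ l : Lit ℕ, l.2 < 3 * φ.length → σ (lv l) = (τ l.2 == l.1) := by
      rintro ⟨b, v⟩ hv
      cases b
      · show σ (2 * v + 1) = _
        rw [e4 v hv]
        cases τ v <;> rfl
      · show σ (2 * v) = _
        rw [e3 v hv]
        cases τ v <;> rfl
    refine ⟨σ, fun t ht => ?_⟩
    unfold toP13 at ht
    rw [List.mem_append, List.mem_append, List.mem_map, List.mem_map, List.mem_singleton] at ht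
    rcases ht with ⟨c, hc, rfl⟩ | ⟨v, hv, rfl⟩ | rfl
    · obtain ⟨h1, h2, h3⟩ := hb c hc
      simp only [e5 _ h1, e5 _ h2, e5 _ h3]
      exact h c hc
    · rw [List.mem_range] at hv
      simp only [e1, e3 v hv, e4 v hv]
      exact one3_c _
    · simp only [e1, e2]
      rfl
  · rintro ⟨σ, h⟩
    have e1 : σ (2 * (3 * φ.length)) = false := by
      have := h (2 * (3 * φ.length), 2 * (3 * φ.length), 2 * (3 * φ.length) + 1) (by
        unfold toP13
        simp)
      exact one3_a _ _ this
    have e4 : ∀ v < 3 * φ.length, σ (2 * v + 1) = !(σ (2 * v)) := by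
      intro v hv
      have := h (2 * v, 2 * v + 1, 2 * (3 * φ.length)) (by
        unfold toP13
        simp only [List.mem_append, List.mem_map, List.mem_range]
        exact Or.inr (Or.inl ⟨v, hv, rfl⟩))
      simp only [e1] at this
      exact one3_b _ _ this
    have e5 : ∀ l : Lit ℕ, l.2 < 3 * φ.length → σ (lv l) = (σ (2 * l.2) == l.1) := by
      rintro ⟨b, v⟩ hv
      cases b
      · show σ (2 * v + 1) = _
        rw [e4 v hv]
        cases σ (2 * v) <;> rfl
      · show σ (2 * v) = _
        cases σ (2 * v) <;> rfl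
    refine ⟨fun v => σ (2 * v), fun c hc => ?_⟩
    obtain ⟨h1, h2, h3⟩ := hb c hc
    have := h (lv c.1, lv c.2.1, lv c.2.2) (by
      unfold toP13
      simp only [List.mem_append, List.mem_map]
      exact Or.inl ⟨c, hc, rfl⟩)
    simp only [e5 _ h1, e5 _ h2, e5 _ h3] at this
    exact this

/-- Monotone one-in-three satisfiability is hard. -/
theorem hardPr_P13 : HardPr BN P13 :=
  Pool.Agent.NPC.H958NLT.hardPr_X13.trans poly_toP13 (fun _ hb => bn_toP13 hb)
    fun _ hb => toP13_correct hb

/-- The variable of the occurrence number `o` (the occurrences in the triple number `j` have the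
numbers `3 j`, `3 j + 1` and `3 j + 2`). -/
def ov (φ : N3) (o : ℕ) : ℕ :=
  if o % 3 = 0 then (tr φ (o / 3)).1 else if o % 3 = 1 then (tr φ (o / 3)).2.1
  else (tr φ (o / 3)).2.2

theorem poly_ov {α : Type} [TEnc α] {f : α → N3} {g : α → ℕ} (hf : NPC.Poly f)
    (hg : NPC.Poly g) : NPC.Poly (fun a => ov (f a) (g a)) := by
  unfold ov
  exact PP.ite (PP.eq (by fun_prop) (by fun_prop)) (by fun_prop)
    (PP.ite (PP.eq (by fun_prop) (by fun_prop)) (by fun_prop) (by fun_prop))

attribute [fun_prop] poly_ov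

theorem ov_lt {φ : N3} (hb : BN φ) {o : ℕ} (ho : o < 3 * φ.length) : ov φ o < 3 * φ.length := by
  obtain ⟨h1, h2, h3⟩ := hb _ (tr_mem (show o / 3 < φ.length by omega))
  unfold ov
  split_ifs <;> assumption

theorem p13_iff (φ : N3) : P13 φ ↔ ∃ τ : ℕ → Bool, ∀ j < φ.length,
    one3 (τ (ov φ (3 * j))) (τ (ov φ (3 * j + 1))) (τ (ov φ (3 * j + 2))) = true := by
  have key : ∀ j, ov φ (3 * j) = (tr φ j).1 ∧ ov φ (3 * j + 1) = (tr φ j).2.1 ∧
      ov φ (3 * j + 2) = (tr φ j).2.2 := by
    intro j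
    unfold ov
    refine ⟨?_, ?_, ?_⟩
    · rw [if_pos (by omega), show 3 * j / 3 = j by omega]
    · rw [if_neg (by omega), if_pos (by omega), show (3 * j + 1) / 3 = j by omega]
    · rw [if_neg (by omega), if_neg (by omega), show (3 * j + 2) / 3 = j by omega]
  unfold P13
  refine exists_congr fun τ => ⟨fun h j hj => ?_, fun h t ht => ?_⟩
  · rw [(key j).1, (key j).2.1, (key j).2.2]
    exact h _ (tr_mem hj)
  · obtain ⟨j, hj, rfl⟩ := List.getElem_of_mem ht
    have := h j hj
    rw [(key j).1, (key j).2.1, (key j).2.2] at this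
    unfold tr at this
    rwa [List.getD_eq_getElem _ _ hj] at this

end Pool.Agent.R544
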