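import Pool.Agent.H601R2.PP
import Pool.Agent.NPC.Dec
import Pool.Agent.Y592.OP.NPMem

/-!
# Small tools for membership in NP and for polynomial-time functions
-/

set_option autoImplicit false

namespace Pool.Agent.R544

open Pool.Agent.NPC

theorem sz_sublist {β : Type} [TEnc β] {l l' : List β} (h : l.Sublist l') : sz l ≤ sz l' := by
  induction h with
  | slnil => exact le_rfl
  | cons a _ ih => simp; omega
  | cons_cons a _ ih => simp; omega

/-- Membership in `NP` when the certificates are sublists of a list that can be computed from the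
instance and the test is a polynomial-time predicate. -/
theorem inNPP_of_pp {α β : Type} [TEnc α] [TEnc β] [TDec α] [TDec β] {P : α → Prop}
    {R : α → β → Prop} (hR : PP (fun x : α × β => R x.1 x.2)) (p : Polynomial ℕ)
    (h1 : ∀ a, P a → ∃ w : β, sz w ≤ p.eval (sz a) ∧ R a w) (h2 : ∀ a w, R a w → P a) :
    InNPP P := by
  obtain ⟨b, hb, hb'⟩ := hR
  refine inNPP_of hb p fun a => ⟨fun ha => ?_, ?_⟩
  · obtain ⟨w, hw, hw'⟩ := h1 a ha
    exact ⟨w, hw, (hb' (a, w)).2 hw'⟩
  · rintro ⟨w, _, hw⟩
    exact h2 a w ((hb' (a, w)).1 hw)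

theorem countP_poly {α β : Type} [TEnc α] [TEnc β] {l : α → List β} {p : α → β → Bool}
    (hl : NPC.Poly l) (hp : NPC.Poly (fun x : α × β => p x.1 x.2)) :
    NPC.Poly (fun a => (l a).countP (p a)) := by
  refine (NPC.Poly.length (NPC.Poly.filter hl hp)).congr fun a => ?_
  rw [List.countP_eq_length_filter]

attribute [fun_prop] countP_poly

/-- The capped parameter is a polynomially bounded number in unary. -/
theorem uPoly_min {α : Type} [TEnc α] {k m : α → ℕ} (hk : NPC.Poly k) (hm : UPoly m) :
    UPoly (fun a => min (k a) (m a)) :=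
  UPoly.of_le (NPC.Poly.min hk hm.toPoly) hm fun _ => min_le_right _ _

theorem choose_two_eq (n : ℕ) : n.choose 2 = n * (n - 1) / 2 := Nat.choose_two_right n

end Pool.Agent.R544
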